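import Mathlib
import Pool.Agent.Helper328.MT.Main

/-! Dehn multi-twists and pseudo-Anosov mapping classes: the answer is no.

All definitions (diffeomorphism group and mapping class group of a planar surface, circles,
geometric intersection numbers, Dehn twists and multi-twists, pseudo-Anosov classes, the property
`UniformBlock`) are in `Pool.Agent.Helper328.MT.Defs`. -/

set_option autoImplicit false
open Set

namespace Pool.Agent.Results.MP_d510f5_gt.MultiTwist
open Pool.Agent.Helper328.MT

/-- `Surf` (the closed disk of radius `2` minus five open disks, a sphere with six holes) is a
compact orientable surface with boundary for which there is no constant `N` as in the question.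
In fact there are a diffeomorphism `f` and a Dehn multi-twist `t` about two circles such that the
`f`-orbits of these circles fill the surface but `t ^ j * f` has order dividing five, so is not
pseudo-Anosov, for every integer `j`. -/
theorem result :
    IsHoledDisk Surf ∧ (¬ ∃ N : ℕ, UniformBlock Surf N) ∧
    ∃ (f : Diff Surf) (α : Fin 2 → Set Surf) (t : MCG Surf),
      IsMultiTwist Surf α t ∧ Fills Surf {C | ∃ (m : ℤ) (i : Fin 2), C = img (f ^ m) (α i)} ∧
      (∀ j : ℤ, (t ^ j * (f : MCG Surf)) ^ 5 = 1) ∧ exceptional Surf t (f : MCG Surf) = univ :=
  ⟨isHoledDisk_Surf, no_uniform_block, counterexample⟩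

end Pool.Agent.Results.MP_d510f5_gt.MultiTwist
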